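import Pool.Agent.Helper54.HY.Deg
import Pool.Agent.Helper28.HA.Defs

/-!
# Project HA (MP_143e28_ag), step A: representation of the elements of the function field
-/

set_option autoImplicit false

namespace Pool.Agent.Helper54.HY

open Polynomial Pool.Agent.Helper28.HA

variable {k F : Type*} [Field k] [Field F] [Algebra k F] {g : ℕ} {x y : F} {f : k[X]}

theorem f_pos (h : Pres k F g x y f) : 0 < f.natDegree := by
  rcases h.deg with h1 | h1 <;> omega

/-- The elements `r(x) + s(x) y`. -/
noncomputable def spanField (h : Pres k F g x y f) : IntermediateField k F where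
  carrier := {u | ∃ r s : RatFunc k, u = rat h.trans r + rat h.trans s * y}
  mul_mem' := by
    rintro u v ⟨r, s, rfl⟩ ⟨r', s', rfl⟩
    refine ⟨r * r' + s * s' * algebraMap k[X] (RatFunc k) f, r * s' + s * r', ?_⟩
    simp only [map_add, map_mul, rat_poly]
    rw [← h.eqn]
    ring
  add_mem' := by
    rintro u v ⟨r, s, rfl⟩ ⟨r', s', rfl⟩
    refine ⟨r + r', s + s', ?_⟩
    simp only [map_add]
    ring
  algebraMap_mem' := by
    intro c
    refine ⟨algebraMap k (RatFunc k) c, 0, ?_⟩
    rw [AlgHom.commutes]
    simp
  inv_mem' := by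
    rintro u ⟨r, s, rfl⟩
    by_cases hu : rat h.trans r + rat h.trans s * y = 0
    · refine ⟨0, 0, ?_⟩
      rw [hu]
      simp
    · have hv : rat h.trans r - rat h.trans s * y ≠ 0 := by
        intro hv
        by_cases hs : s = 0
        · subst hs
          simp only [map_zero, zero_mul, sub_zero, add_zero] at hu hv
          exact hu hv
        · apply y_notMem h.trans h.sqf (f_pos h) h.eqn (r / s)
          rw [map_div₀, div_eq_iff (fun h0 => hs (rat_injective h.trans (by rw [h0, map_zero])))]
          linear_combination hv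
      refine ⟨r / (r ^ 2 - s ^ 2 * algebraMap k[X] (RatFunc k) f),
        -s / (r ^ 2 - s ^ 2 * algebraMap k[X] (RatFunc k) f), ?_⟩
      have e : rat h.trans (r ^ 2 - s ^ 2 * algebraMap k[X] (RatFunc k) f) =
          (rat h.trans r + rat h.trans s * y) * (rat h.trans r - rat h.trans s * y) := by
        simp only [map_sub, map_mul, map_pow, rat_poly]
        rw [← h.eqn]
        ring
      rw [map_div₀, map_div₀, e, map_neg]
      field_simp
      ring

theorem exists_rep (h : Pres k F g x y f) (u : F) :
    ∃ r s : RatFunc k, u = rat h.trans r + rat h.trans s * y := by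
  have h1 : IntermediateField.adjoin k {x, y} ≤ spanField h := by
    rw [IntermediateField.adjoin_le_iff]
    rintro v (rfl | hv)
    · exact ⟨RatFunc.X, 0, by simp [rat_X]⟩
    · rw [Set.mem_singleton_iff] at hv
      subst hv
      exact ⟨0, 1, by simp⟩
  rw [h.gen] at h1
  exact h1 (IntermediateField.mem_top (x := u))

theorem exists_rep' (h : Pres k F g x y f) (u : F) :
    ∃ a b c : k[X], c ≠ 0 ∧ aeval x c * u = aeval x a + aeval x b * y ∧
      (b = 0 → ∃ r : RatFunc k, u = rat h.trans r) := by
  obtain ⟨r, s, hu⟩ := exists_rep h u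
  have hr : rat h.trans r * aeval x r.denom = aeval x r.num := by
    rw [← rat_poly h.trans, ← rat_poly h.trans, ← map_mul]
    congr 1
    have := RatFunc.num_div_denom r
    rw [div_eq_iff (RatFunc.algebraMap_ne_zero (RatFunc.denom_ne_zero r))] at this
    exact this.symm
  have hs : rat h.trans s * aeval x s.denom = aeval x s.num := by
    rw [← rat_poly h.trans, ← rat_poly h.trans, ← map_mul]
    congr 1
    have := RatFunc.num_div_denom s
    rw [div_eq_iff (RatFunc.algebraMap_ne_zero (RatFunc.denom_ne_zero s))] at this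
    exact this.symm
  refine ⟨r.num * s.denom, s.num * r.denom, r.denom * s.denom,
    mul_ne_zero (RatFunc.denom_ne_zero r) (RatFunc.denom_ne_zero s), ?_, ?_⟩
  · rw [hu, map_mul, map_mul, map_mul, ← hr, ← hs]
    ring
  · intro hb
    rcases mul_eq_zero.1 hb with h0 | h0
    · refine ⟨r, ?_⟩
      rw [hu, RatFunc.num_eq_zero_iff.1 h0]
      simp
    · exact absurd h0 (RatFunc.denom_ne_zero r)

theorem aevalAeval_eq (x z : F) (P : k[X][X]) :
    aevalAeval x z P = P.eval₂ (aeval x : k[X] →ₐ[k] F).toRingHom z := by
  induction P using Polynomial.induction_on' with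
  | add p q hp hq => rw [map_add, eval₂_add, hp, hq]
  | monomial n a =>
    rw [eval₂_monomial, ← C_mul_X_pow_eq_monomial, map_mul, map_pow, aevalAeval_C, aevalAeval_Y]
    rfl

end Pool.Agent.Helper54.HY
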