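import Mathlib

/-!
# Project HA (MP_143e28_ag): the polynomial is unique
-/

set_option autoImplicit false

namespace Pool.Agent.Helper54.HY

open Polynomial Filter

/-- A rational polynomial with infinitely many nonnegative and infinitely many nonpositive values
at natural numbers is zero. -/
theorem poly_zero (P : ℚ[X]) (h1 : {g : ℕ | 0 ≤ P.eval (g : ℚ)}.Infinite)
    (h2 : {g : ℕ | P.eval (g : ℚ) ≤ 0}.Infinite) : P = 0 := by
  by_contra hP
  have hfin : {g : ℕ | P.eval (g : ℚ) = 0}.Finite := by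
    have h3 : {q : ℚ | P.eval q = 0}.Finite := by
      refine (P.roots.toFinset.finite_toSet).subset ?_
      intro q hq
      simp only [Finset.mem_coe, Multiset.mem_toFinset]
      exact (mem_roots hP).2 hq
    exact (h3.preimage (Nat.cast_injective.injOn (s := (Nat.cast ⁻¹' {q : ℚ | P.eval q = 0}))))
  rcases P.natDegree.eq_zero_or_pos with h0 | h0
  · -- constant
    obtain ⟨c, hc⟩ := natDegree_eq_zero.1 h0
    subst hc
    have hc0 : c ≠ 0 := by
      intro h
      exact hP (by rw [h, C_0])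
    obtain ⟨a, ha⟩ := h1.nonempty
    obtain ⟨b, hb⟩ := h2.nonempty
    simp only [eval_C, Set.mem_ofPred_eq] at ha hb
    exact hc0 (le_antisymm hb ha)
  · have hd : 0 < P.degree := natDegree_pos_iff_degree_pos.1 h0
    rcases lt_or_gt_of_ne (leadingCoeff_ne_zero.2 hP) with hl | hl
    · have ht := P.tendsto_atBot_of_leadingCoeff_nonpos hd hl.le
      have ht2 := ht.comp (tendsto_natCast_atTop_atTop (R := ℚ))
      have h5 := (ht2.eventually (eventually_lt_atBot 0))
      rw [eventually_atTop] at h5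
      obtain ⟨N, hN⟩ := h5
      obtain ⟨b, hb, hbN⟩ := h1.exists_gt N
      have := hN b hbN.le
      simp only [Function.comp_apply] at this
      exact absurd this (not_lt.2 hb)
    · have ht := P.tendsto_atTop_of_leadingCoeff_nonneg hd hl.le
      have ht2 := ht.comp (tendsto_natCast_atTop_atTop (R := ℚ))
      have h5 := (ht2.eventually (eventually_gt_atTop 0))
      rw [eventually_atTop] at h5
      obtain ⟨N, hN⟩ := h5
      obtain ⟨b, hb, hbN⟩ := h2.exists_gt N
      have := hN b hbN.le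
      simp only [Function.comp_apply] at this
      exact absurd this (not_lt.2 hb)

theorem unique_poly (mu : ℕ → ℕ) (c : ℚ) (a : ℚ)
    (hlow : ∀ g, 2 ≤ g → a * g + c ≤ (mu g : ℚ))
    (hinf : {g : ℕ | 2 ≤ g ∧ (mu g : ℚ) = a * g + c}.Infinite) (M : ℚ[X]) :
    ((∀ g : ℕ, 2 ≤ g → M.eval (g : ℚ) ≤ mu g) ∧
      {g : ℕ | 2 ≤ g ∧ (mu g : ℚ) = M.eval (g : ℚ)}.Infinite) ↔ M = C a * X + C c := by
  constructor
  · rintro ⟨h1, h2⟩
    have : M - (C a * X + C c) = 0 := by
      apply poly_zero
      · refine h2.mono ?_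
        rintro g ⟨hg, hM⟩
        simp only [eval_sub, eval_add, eval_mul, eval_C, eval_X, Set.mem_ofPred_eq]
        have := hlow g hg
        rw [hM] at this
        linarith
      · refine hinf.mono ?_
        rintro g ⟨hg, hM⟩
        simp only [eval_sub, eval_add, eval_mul, eval_C, eval_X, Set.mem_ofPred_eq]
        have := h1 g hg
        rw [hM] at this
        linarith
    exact sub_eq_zero.1 this
  · rintro rfl
    simp only [eval_add, eval_mul, eval_C, eval_X]
    exact ⟨hlow, hinf⟩

/-- There are infinitely many `g` with `p ∥ g + 1` and `g + 1 > p²`. -/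
theorem inf_special (p : ℕ) (hp : p.Prime) :
    {g : ℕ | 2 ≤ g ∧ p ∣ g + 1 ∧ ¬ p ^ 2 ∣ g + 1 ∧ p ^ 2 < g + 1}.Infinite := by
  rw [Set.infinite_iff_exists_gt]
  intro N
  have hp2 := hp.two_le
  set m := p * (N + p + 2) + 1 with hm
  have hmp : ¬ p ∣ m := by
    rw [hm, Nat.dvd_add_right ⟨_, rfl⟩]
    intro h
    have := Nat.le_of_dvd one_pos h
    omega
  have hmle : N + p + 3 ≤ m := by
    rw [hm]
    nlinarith
  have h1 : p * m ≥ 2 * m := Nat.mul_le_mul_right m hp2
  refine ⟨p * m - 1, ⟨by omega, ?_, ?_, ?_⟩, by omega⟩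
  · rw [Nat.sub_add_cancel (by omega)]
    exact ⟨m, rfl⟩
  · rw [Nat.sub_add_cancel (by omega), sq]
    intro h
    exact hmp ((Nat.mul_dvd_mul_iff_left hp.pos).1 h)
  · rw [Nat.sub_add_cancel (by omega), sq]
    exact Nat.mul_lt_mul_of_pos_left (by omega) hp.pos

end Pool.Agent.Helper54.HY
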