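import Mathlib

/-!
# Project HA (MP_143e28_ag), step A: the degree lemma

No element of the function field `k(x, y)`, `y² = f(x)`, `f` squarefree of degree `≥ 2 g + 1`,
outside `k(x)` satisfies with `x` a polynomial equation of degree `≤ g` in `x`.
-/

set_option autoImplicit false

namespace Pool.Agent.Helper54.HY

open Polynomial

open scoped Polynomial.Bivariate

variable {k : Type*} [Field k]

theorem coeff_coeff_swap (p : k[X][X]) (i j : ℕ) :
    ((Bivariate.swap p).coeff i).coeff j = (p.coeff j).coeff i := by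
  induction p using Polynomial.induction_on' with
  | add p q hp hq => simp [map_add, hp, hq]
  | monomial n a =>
    induction a using Polynomial.induction_on' with
    | add p q hp hq => simp only [map_add, coeff_add, hp, hq]
    | monomial m r =>
      rw [Bivariate.swap_monomial_monomial]
      simp only [coeff_monomial]
      by_cases h1 : m = i <;> by_cases h2 : n = j <;> simp [h1, h2, coeff_monomial]

theorem natDegree_swap_le {p : k[X][X]} {d : ℕ} :
    (Bivariate.swap p).natDegree ≤ d ↔ ∀ i, (p.coeff i).natDegree ≤ d := by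
  constructor
  · intro h i
    rw [natDegree_le_iff_coeff_eq_zero]
    intro N hN
    rw [← coeff_coeff_swap, coeff_eq_zero_of_natDegree_lt (lt_of_le_of_lt h hN), coeff_zero]
  · intro h
    rw [natDegree_le_iff_coeff_eq_zero]
    intro N hN
    ext j
    rw [coeff_coeff_swap, coeff_eq_zero_of_natDegree_lt (lt_of_le_of_lt (h j) hN), coeff_zero]

theorem dvd_of_sq_dvd {f h c : k[X]} (hf : Squarefree f) (hd : c ^ 2 ∣ h ^ 2 * f) : c ∣ h := by
  classical
  by_cases hh : h = 0
  · simp [hh]
  by_cases hc : c = 0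
  · subst hc
    simp only [ne_eq, OfNat.ofNat_ne_zero, not_false_eq_true, zero_pow, zero_dvd_iff, mul_eq_zero,
      pow_eq_zero_iff] at hd
    rcases hd with h1 | h1
    · simp [h1]
    · exact absurd h1 hf.ne_zero
  obtain ⟨u, hu⟩ := EuclideanDomain.gcd_dvd_left c h
  obtain ⟨v, hv⟩ := EuclideanDomain.gcd_dvd_right c h
  set t := EuclideanDomain.gcd c h with ht
  have ht0 : t ≠ 0 := by
    intro h0
    rw [h0, zero_mul] at hu
    exact hc hu
  have hcop : IsCoprime u v := by
    have h1 := EuclideanDomain.gcd_eq_gcd_ab c h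
    refine ⟨EuclideanDomain.gcdA c h, EuclideanDomain.gcdB c h, ?_⟩
    have h2 : t * (EuclideanDomain.gcdA c h * u + EuclideanDomain.gcdB c h * v) = t * 1 := by
      rw [← ht] at h1
      calc t * (EuclideanDomain.gcdA c h * u + EuclideanDomain.gcdB c h * v)
          = (t * u) * EuclideanDomain.gcdA c h + (t * v) * EuclideanDomain.gcdB c h := by ring
        _ = t * 1 := by rw [← hu, ← hv, mul_one]; exact h1.symm
    exact mul_left_cancel₀ ht0 h2
  have h3 : u ^ 2 ∣ v ^ 2 * f := by
    rw [hu, hv] at hd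
    have h4 : t ^ 2 * u ^ 2 ∣ t ^ 2 * (v ^ 2 * f) := by
      convert hd using 1 <;> ring
    exact (mul_dvd_mul_iff_left (pow_ne_zero 2 ht0)).1 h4
  have h5 : u ^ 2 ∣ f := (hcop.pow (m := 2) (n := 2)).dvd_of_dvd_mul_left h3
  have h6 : IsUnit u := hf u (by rwa [sq] at h5)
  rw [hu]
  rw [hv]
  exact mul_dvd_mul_left t (h6.dvd)

/-- The embedding of the rational function field determined by a transcendental element. -/
noncomputable def rat {F : Type*} [Field F] [Algebra k F] {x : F} (hx : Transcendental k x) :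
    RatFunc k →ₐ[k] F :=
  RatFunc.liftAlgHom (aeval x) (fun p hp => by
    rw [Submonoid.mem_comap]
    exact mem_nonZeroDivisors_of_ne_zero (fun h => nonZeroDivisors.ne_zero hp
      ((transcendental_iff.1 hx) p h)))

section

variable {F : Type*} [Field F] [Algebra k F] {x y z : F} {f : k[X]}

theorem rat_poly (hx : Transcendental k x) (p : k[X]) :
    rat hx (algebraMap k[X] (RatFunc k) p) = aeval x p := by
  rw [rat, RatFunc.liftAlgHom_apply]
  simp

theorem rat_X (hx : Transcendental k x) : rat hx RatFunc.X = x := by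
  rw [← RatFunc.algebraMap_X, rat_poly, aeval_X]

theorem rat_injective (hx : Transcendental k x) : Function.Injective (rat hx) :=
  (rat hx).toRingHom.injective

/-- `f` squarefree of positive degree is not a square of a rational function. -/
theorem y_notMem (hx : Transcendental k x) (hf : Squarefree f) (hd : 0 < f.natDegree)
    (hy : y ^ 2 = aeval x f) (r : RatFunc k) : rat hx r ≠ y := by
  intro h
  rw [← h, ← map_pow, ← rat_poly hx] at hy
  have h1 := rat_injective hx hy
  have h0 : algebraMap k[X] (RatFunc k) r.num = r * algebraMap k[X] (RatFunc k) r.denom := by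
    have := RatFunc.num_div_denom r
    rw [div_eq_iff (RatFunc.algebraMap_ne_zero (RatFunc.denom_ne_zero r))] at this
    exact this
  have h2 : algebraMap k[X] (RatFunc k) (r.num ^ 2) = algebraMap k[X] (RatFunc k)
      (r.denom ^ 2 * f) := by
    rw [map_mul, ← h1, map_pow, map_pow, h0]
    ring
  have h3 : r.num ^ 2 = r.denom ^ 2 * f := RatFunc.algebraMap_injective k h2
  have h4 : IsUnit r.denom := by
    have := RatFunc.isCoprime_num_denom r
    have h5 : r.denom ∣ r.num := (IsIntegrallyClosed.pow_dvd_pow_iff two_ne_zero).1 ⟨f, h3⟩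
    exact this.symm.isUnit_of_dvd h5
  obtain ⟨u, hu⟩ := h4
  have h6 : f = (r.num * (u⁻¹ : (k[X])ˣ)) ^ 2 := by
    rw [mul_pow, h3, ← hu]
    have : (u : k[X]) * (u⁻¹ : (k[X])ˣ) = 1 := by simp
    calc f = 1 ^ 2 * f := by ring
      _ = ((u : k[X]) * (u⁻¹ : (k[X])ˣ)) ^ 2 * f := by rw [this]
      _ = _ := by ring
  have h7 : IsUnit (r.num * (u⁻¹ : (k[X])ˣ)) := hf _ (by rw [← sq]; exact h6 ▸ dvd_rfl)
  have h8 := natDegree_eq_zero_of_isUnit (h7.pow 2)
  rw [← h6] at h8
  omega

theorem quad_coeff {R : Type*} [CommRing R] (A B D : R) :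
    (C A * X ^ 2 + C B * X + C D : R[X]).coeff 2 = A ∧
    (C A * X ^ 2 + C B * X + C D : R[X]).coeff 1 = B ∧
    (C A * X ^ 2 + C B * X + C D : R[X]).coeff 0 = D := by
  refine ⟨?_, ?_, ?_⟩
  · rw [coeff_add, coeff_add, coeff_C_mul_X_pow, coeff_C_mul_X, coeff_C]
    simp
  · rw [coeff_add, coeff_add, coeff_C_mul_X_pow, coeff_C_mul_X, coeff_C]
    simp
  · rw [coeff_add, coeff_add, coeff_C_mul_X_pow, coeff_C_mul_X, coeff_C]
    simp

/-- The degree lemma. -/
theorem deg_lemma {g : ℕ} (h2 : (2 : k) ≠ 0) (hx : Transcendental k x) (hf : Squarefree f)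
    (hd : 2 * g + 1 ≤ f.natDegree) (hy : y ^ 2 = aeval x f) {a b c : k[X]} (hb : b ≠ 0) (hc : c ≠ 0)
    (hz : aeval x c * z = aeval x a + aeval x b * y) {P : k[X][X]}
    (hP : ∀ i, (P.coeff i).natDegree ≤ g)
    (hev : P.eval₂ (aeval x : k[X] →ₐ[k] F).toRingHom z = 0) :
    P = 0 := by
  classical
  by_contra hP0
  obtain ⟨R, hR⟩ : ∃ R : k[X][X], R = C (c ^ 2) * X ^ 2 + C (-(2 * a * c)) * X +
    C (a ^ 2 - b ^ 2 * f) := ⟨_, rfl⟩
  obtain ⟨hR2, hR1, hR0⟩ := quad_coeff (c ^ 2) (-(2 * a * c)) (a ^ 2 - b ^ 2 * f)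
  rw [← hR] at hR2 hR1 hR0
  have hRne : R ≠ 0 := by
    intro h
    rw [h, coeff_zero] at hR2
    exact pow_ne_zero 2 hc hR2.symm
  have hRd : R.natDegree = 2 := by
    apply le_antisymm
    · rw [hR]
      exact natDegree_quadratic_le
    · apply le_natDegree_of_ne_zero
      rw [hR2]
      exact pow_ne_zero 2 hc
  -- primitive part
  obtain ⟨S, hS⟩ : ∃ S, S = R.primPart := ⟨_, rfl⟩
  obtain ⟨t, ht⟩ : ∃ t, t = R.content := ⟨_, rfl⟩
  have hSp : S.IsPrimitive := hS ▸ isPrimitive_primPart R
  have hRS : R = C t * S := by rw [hS, ht]; exact R.eq_C_content_mul_primPart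
  have hSd : S.natDegree = 2 := by rw [hS, natDegree_primPart, hRd]
  have ht0 : t ≠ 0 := by
    intro h
    rw [h] at hRS
    apply hRne
    rw [hRS]; simp
  have hc2 : t * S.coeff 2 = c ^ 2 := by rw [← hR2, hRS, coeff_C_mul]
  have hc1 : t * S.coeff 1 = -(2 * a * c) := by rw [← hR1, hRS, coeff_C_mul]
  have hc0 : t * S.coeff 0 = a ^ 2 - b ^ 2 * f := by rw [← hR0, hRS, coeff_C_mul]
  have hdisc : t ^ 2 * (S.coeff 1 ^ 2 - 4 * S.coeff 2 * S.coeff 0) = (2 * b * c) ^ 2 * f := by
    calc t ^ 2 * (S.coeff 1 ^ 2 - 4 * S.coeff 2 * S.coeff 0)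
        = (t * S.coeff 1) ^ 2 - 4 * (t * S.coeff 2) * (t * S.coeff 0) := by ring
      _ = (2 * b * c) ^ 2 * f := by rw [hc2, hc1, hc0]; ring
  obtain ⟨d, hd'⟩ := dvd_of_sq_dvd hf ⟨_, hdisc.symm⟩
  have h2' : (2 : k[X]) ≠ 0 := by
    have : (2 : k[X]) = C (2 : k) := (map_ofNat C 2).symm
    rw [this]
    exact C_ne_zero.2 h2
  have hd0 : d ≠ 0 := by
    intro h
    rw [h, mul_zero] at hd'
    exact mul_ne_zero (mul_ne_zero h2' hb) hc hd'
  have hdisc2 : S.coeff 1 ^ 2 - 4 * S.coeff 2 * S.coeff 0 = d ^ 2 * f := by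
    apply mul_left_cancel₀ (pow_ne_zero 2 ht0)
    rw [hdisc, hd']
    ring
  -- `z` is a root of `S`
  have hzS : S.eval₂ (aeval x : k[X] →ₐ[k] F).toRingHom z = 0 := by
    have h1 : R.eval₂ (aeval x : k[X] →ₐ[k] F).toRingHom z = 0 := by
      rw [hR, eval₂_add, eval₂_add, eval₂_mul, eval₂_mul, eval₂_pow, eval₂_X, eval₂_C, eval₂_C,
        eval₂_C]
      change aeval x (c ^ 2) * z ^ 2 + aeval x (-(2 * a * c)) * z +
        aeval x (a ^ 2 - b ^ 2 * f) = 0
      simp only [map_neg, map_sub, map_mul, map_pow, map_ofNat]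
      rw [← hy]
      calc aeval x c ^ 2 * z ^ 2 + -(2 * aeval x a * aeval x c) * z +
          (aeval x a ^ 2 - aeval x b ^ 2 * y ^ 2)
          = (aeval x c * z) ^ 2 - 2 * aeval x a * (aeval x c * z) +
          (aeval x a ^ 2 - aeval x b ^ 2 * y ^ 2) := by ring
        _ = 0 := by rw [hz]; ring
    rw [hRS, eval₂_mul, eval₂_C] at h1
    rcases mul_eq_zero.1 h1 with h | h
    · exact absurd ((transcendental_iff.1 hx) t h) ht0
    · exact h
  -- `S` divides `P`
  have hcomp : (aeval x : k[X] →ₐ[k] F).toRingHom =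
      (rat hx).toRingHom.comp (algebraMap k[X] (RatFunc k)) :=
    RingHom.ext fun q => (rat_poly hx q).symm
  have hzr : ∀ r : RatFunc k, rat hx r ≠ z := by
    intro r hr
    have hbx : aeval x b ≠ 0 := fun h => hb ((transcendental_iff.1 hx) b h)
    apply y_notMem hx hf (by omega) hy ((algebraMap k[X] (RatFunc k) c * r -
      algebraMap k[X] (RatFunc k) a) / algebraMap k[X] (RatFunc k) b)
    rw [map_div₀, map_sub, map_mul, rat_poly, rat_poly, rat_poly, hr, hz]
    field_simp
    ring
  have hSP : S ∣ P := by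
    apply hSp.dvd_of_fraction_map_dvd_fraction_map (K := RatFunc k)
    set S' := S.map (algebraMap k[X] (RatFunc k)) with hS'
    set P' := P.map (algebraMap k[X] (RatFunc k)) with hP'
    have hS0 : S' ≠ 0 := by
      rw [hS', Ne, Polynomial.map_eq_zero_iff (RatFunc.algebraMap_injective k)]
      intro h
      rw [h] at hSd
      simp at hSd
    have hS'd : S'.natDegree = 2 := by
      rw [hS', natDegree_map_eq_of_injective (RatFunc.algebraMap_injective k), hSd]
    rw [← EuclideanDomain.mod_eq_zero]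
    set T := P' % S' with hT
    have hTd : T.natDegree ≤ 1 := by
      have h1 : T.natDegree < S'.natDegree ∨ T = 0 := by
        by_cases h : T = 0
        · exact Or.inr h
        · left
          exact natDegree_lt_natDegree h (EuclideanDomain.mod_lt P' hS0)
      rcases h1 with h1 | h1
      · omega
      · rw [h1]; simp
    have hTz : T.eval₂ (rat hx).toRingHom z = 0 := by
      have h1 : P' = S' * (P' / S') + T := (EuclideanDomain.div_add_mod P' S').symm
      have h2 : P'.eval₂ (rat hx).toRingHom z = 0 := by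
        rw [hP', eval₂_map, ← hcomp, hev]
      have h3 : S'.eval₂ (rat hx).toRingHom z = 0 := by
        rw [hS', eval₂_map, ← hcomp, hzS]
      rw [h1, eval₂_add, eval₂_mul, h3, zero_mul, zero_add] at h2
      exact h2
    obtain ⟨u, v, huv⟩ := exists_eq_X_add_C_of_natDegree_le_one hTd
    rw [huv] at hTz ⊢
    simp only [eval₂_add, eval₂_mul, eval₂_C, eval₂_X] at hTz
    have hu : u = 0 := by
      by_contra hu
      apply hzr (-v / u)
      have hu' : rat hx u ≠ 0 := by
        intro h
        exact hu (rat_injective hx (by rw [h, map_zero]))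
      rw [map_div₀, map_neg]
      rw [div_eq_iff hu']
      have : rat hx u * z + rat hx v = 0 := hTz
      linear_combination -this
    subst hu
    have hv : v = 0 := by
      have : rat hx v = 0 := by simpa using hTz
      exact rat_injective hx (by rw [this, map_zero])
    simp [hv]
  obtain ⟨U, hU⟩ := hSP
  have hsw : (Bivariate.swap P).natDegree ≤ g := natDegree_swap_le.2 hP
  rw [hU, map_mul] at hsw
  have hS0 : Bivariate.swap S ≠ 0 := by
    intro h
    have : S = 0 := by
      have := congrArg Bivariate.swap h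
      rwa [Bivariate.swap_swap_apply, map_zero] at this
    rw [this] at hSd
    simp at hSd
  have hU0 : Bivariate.swap U ≠ 0 := by
    intro h
    have : U = 0 := by
      have := congrArg Bivariate.swap h
      rwa [Bivariate.swap_swap_apply, map_zero] at this
    rw [this, mul_zero] at hU
    exact hP0 hU
  rw [natDegree_mul hS0 hU0] at hsw
  have hSc : ∀ i, (S.coeff i).natDegree ≤ g := natDegree_swap_le.1 (by omega)
  have h5 : (d ^ 2 * f).natDegree ≤ 2 * g := by
    rw [← hdisc2]
    refine (natDegree_sub_le _ _).trans (max_le ?_ ?_)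
    · refine (natDegree_pow_le).trans ?_
      have := hSc 1
      omega
    · refine (natDegree_mul_le).trans ?_
      have h6 : (4 * S.coeff 2).natDegree ≤ g := by
        have : (4 : k[X]) = C (4 : k) := (map_ofNat C 4).symm
        rw [this]
        exact (natDegree_C_mul_le _ _).trans (hSc 2)
      have := hSc 0
      omega
  rw [natDegree_mul (pow_ne_zero 2 hd0) hf.ne_zero] at h5
  omega

end

end Pool.Agent.Helper54.HY
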